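import Pool.Agent.Q154.AB.TRA

/-!
# AB-CNT: counting types and odd characters
-/

set_option autoImplicit false

open Finset Real
open scoped Classical

namespace Pool.Agent.Q154.AB

open Pool.Agent.Q29.AB

theorem exists_type {G : Type} [CommGroup G] [Fintype G] (c : G) (hc : c * c = 1) (hc1 : c ≠ 1) :
    ∃ T, T ∈ types c := by
  have hcc : ∀ x : G, c * (c * x) = x := fun x => by rw [← mul_assoc, hc, one_mul]
  have hne : ∀ x : G, c * x ≠ x := fun x h => hc1 (mul_eq_right.mp h)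
  let e := Fintype.equivFin G
  refine ⟨univ.filter fun x => e x < e (c * x), ?_⟩
  rw [mem_types]
  intro x
  simp only [mem_filter, mem_univ, true_and, hcc, not_lt]
  constructor
  · exact fun h => h.le
  · intro h
    exact lt_of_le_of_ne h fun h2 => hne x (e.injective h2)

/-- exchange of `1` and `c` -/
theorem symm_types {G : Type} [CommGroup G] [Fintype G] (c : G) (hc : c * c = 1) (Ψ : Finset G)
    (hΨ : Ψ ∈ types c) : symmDiff Ψ {1, c} ∈ types c := by
  rw [mem_types] at hΨ ⊢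
  intro x
  have h1 : c * x ∈ ({1, c} : Finset G) ↔ x ∈ ({1, c} : Finset G) := by
    simp only [mem_insert, mem_singleton]
    constructor
    · rintro (h | h)
      · right
        have : c * (c * x) = c * 1 := by rw [h]
        rwa [← mul_assoc, hc, one_mul, mul_one] at this
      · left
        exact mul_eq_left.mp h
    · rintro (h | h)
      · right
        rw [h, mul_one]
      · left
        rw [h, hc]
  rw [mem_symmDiff, mem_symmDiff, h1, hΨ x]
  tauto

theorem odd_symm {G : Type} [CommGroup G] (c : G) (χ₀ : G →* ℂˣ) (hχ : χ₀ c = -1) (Ψ : Finset G) :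
    OddOn χ₀ (symmDiff Ψ {1, c}) ↔ ¬ OddOn χ₀ Ψ := by
  unfold OddOn
  have hne : (-1 : ℂˣ) ≠ 1 := by
    intro h
    have := congrArg (fun u : ℂˣ => (u : ℂ)) h
    simp only [Units.val_neg, Units.val_one] at this
    norm_num at this
  have hc1 : χ₀ c ≠ 1 := by rw [hχ]; exact hne
  have hmem : ∀ x, x ∈ ((symmDiff Ψ {1, c}).filter fun x => χ₀ x = 1) ↔
      (χ₀ x = 1 ∧ ((x ∈ Ψ ∧ x ≠ 1) ∨ (x = 1 ∧ x ∉ Ψ))) := by
    intro x
    rw [mem_filter, mem_symmDiff, mem_insert, mem_singleton]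
    constructor
    · rintro ⟨h1 | h1, h2⟩
      · exact ⟨h2, Or.inl ⟨h1.1, fun h3 => h1.2 (Or.inl h3)⟩⟩
      · rcases h1.1 with h3 | h3
        · exact ⟨h2, Or.inr ⟨h3, h1.2⟩⟩
        · rw [h3] at h2
          exact absurd h2 hc1
    · rintro ⟨h1, h2 | h2⟩
      · refine ⟨Or.inl ⟨h2.1, ?_⟩, h1⟩
        rintro (h3 | h3)
        · exact h2.2 h3
        · rw [h3] at h1
          exact hc1 h1
      · exact ⟨Or.inr ⟨Or.inl h2.1, h2.2⟩, h1⟩
  by_cases h : (1 : G) ∈ Ψ
  · have h1 : (symmDiff Ψ {1, c}).filter (fun x => χ₀ x = 1) =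
        (Ψ.filter fun x => χ₀ x = 1).erase 1 := by
      ext x
      rw [hmem, mem_erase, mem_filter]
      constructor
      · rintro ⟨h2, h3 | h3⟩
        · exact ⟨h3.2, h3.1, h2⟩
        · exact absurd (h3.1 ▸ h) h3.2
      · rintro ⟨h2, h3, h4⟩
        exact ⟨h4, Or.inl ⟨h3, h2⟩⟩
    have h2 : (1 : G) ∈ Ψ.filter fun x => χ₀ x = 1 := mem_filter.mpr ⟨h, map_one _⟩
    rw [h1, card_erase_of_mem h2]
    have h3 : 1 ≤ (Ψ.filter fun x => χ₀ x = 1).card := card_pos.mpr ⟨1, h2⟩
    rw [Nat.not_odd_iff_even]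
    constructor
    · rintro ⟨k, hk⟩
      exact ⟨k + 1, by omega⟩
    · rintro ⟨k, hk⟩
      exact ⟨k - 1, by omega⟩
  · have h1 : (symmDiff Ψ {1, c}).filter (fun x => χ₀ x = 1) =
        insert 1 (Ψ.filter fun x => χ₀ x = 1) := by
      ext x
      rw [hmem, mem_insert, mem_filter]
      constructor
      · rintro ⟨h2, h3 | h3⟩
        · exact Or.inr ⟨h3.1, h2⟩
        · exact Or.inl h3.1
      · rintro (h2 | h2)
        · rw [h2]
          exact ⟨map_one _, Or.inr ⟨rfl, h⟩⟩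
        · exact ⟨h2.2, Or.inl ⟨h2.1, fun h3 => h (h3 ▸ h2.1)⟩⟩
    have h2 : (1 : G) ∉ Ψ.filter fun x => χ₀ x = 1 := fun h3 => h (mem_filter.mp h3).1
    rw [h1, card_insert_of_notMem h2, Nat.odd_add_one]

theorem t_CNT : S_CNT := by
  intro hTRA G _ _ _ c g hc hc1 hG
  obtain ⟨T, hT⟩ := exists_type c hc hc1
  obtain ⟨hTc, ⟨hm, hi, hs⟩, -⟩ := hTRA G c g T hc hG hT
  have hcard : (types c).card = 2 ^ g := by
    rw [Finset.card_nbij (fun Ψ : Finset G => Ψ ∩ T) hm hi hs, card_powerset, hTc]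
  have hcc : ∀ Ψ : Finset G, symmDiff (symmDiff Ψ {1, c}) {1, c} = Ψ := fun Ψ =>
    symmDiff_symmDiff_cancel_right _ _
  refine ⟨hcard, ?_, ?_⟩
  · intro χ₀ hχ _
    have h1 : ((types c).filter fun Ψ => OddOn χ₀ Ψ).card =
        ((types c).filter fun Ψ => ¬ OddOn χ₀ Ψ).card := by
      refine Finset.card_nbij' (fun Ψ => symmDiff Ψ {1, c}) (fun Ψ => symmDiff Ψ {1, c})
        ?_ ?_ ?_ ?_
      · intro Ψ hΨ
        rw [mem_coe, mem_filter] at hΨ ⊢
        refine ⟨symm_types c hc Ψ hΨ.1, ?_⟩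
        rw [odd_symm c χ₀ hχ, not_not]
        exact hΨ.2
      · intro Ψ hΨ
        rw [mem_coe, mem_filter] at hΨ ⊢
        exact ⟨symm_types c hc Ψ hΨ.1, (odd_symm c χ₀ hχ Ψ).mpr hΨ.2⟩
      · intro Ψ _
        exact hcc Ψ
      · intro Ψ _
        exact hcc Ψ
    have h2 : ((types c).filter fun Ψ => OddOn χ₀ Ψ).card +
        ((types c).filter fun Ψ => ¬ OddOn χ₀ Ψ).card = (types c).card :=
      Finset.card_filter_add_card_filter_not _
    rw [← h1, hcard] at h2
    omega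
  · have hpm : ∀ χ : G →* ℂˣ, χ c = 1 ∨ χ c = -1 := by
      intro χ
      have h1 : χ c * χ c = 1 := by rw [← map_mul, hc, map_one]
      have h2 : ((χ c : ℂˣ) : ℂ) * (χ c : ℂ) = 1 := by
        rw [← Units.val_mul, h1, Units.val_one]
      rcases mul_self_eq_one_iff.mp h2 with h3 | h3
      · left
        exact Units.ext h3
      · right
        exact Units.ext (by rw [h3]; simp)
    have hne : (-1 : ℂˣ) ≠ 1 := by
      intro h
      have := congrArg (fun u : ℂˣ => (u : ℂ)) h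
      simp only [Units.val_neg, Units.val_one] at this
      norm_num at this
    obtain ⟨χ₁, hχ₁⟩ := CommGroup.exists_apply_ne_one_of_hasEnoughRootsOfUnity G ℂ hc1
    have hχ₁c : χ₁ c = -1 := (hpm χ₁).resolve_left hχ₁
    have h1 : (univ.filter fun χ : G →* ℂˣ => χ c = -1).card =
        (univ.filter fun χ : G →* ℂˣ => ¬ χ c = -1).card := by
      refine Finset.card_nbij' (fun χ => χ * χ₁) (fun χ => χ * χ₁⁻¹) ?_ ?_ ?_ ?_
      · intro χ hχ
        rw [mem_coe, mem_filter] at hχ ⊢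
        refine ⟨mem_univ _, ?_⟩
        rw [MonoidHom.mul_apply, hχ.2, hχ₁c]
        intro h
        apply hne
        rw [← h]
        simp
      · intro χ hχ
        rw [mem_coe, mem_filter] at hχ ⊢
        refine ⟨mem_univ _, ?_⟩
        rw [MonoidHom.mul_apply, MonoidHom.inv_apply, (hpm χ).resolve_right hχ.2, hχ₁c]
        simp
      · intro χ _
        exact mul_inv_cancel_right χ χ₁
      · intro χ _
        exact inv_mul_cancel_right χ χ₁
    have h2 : (univ.filter fun χ : G →* ℂˣ => χ c = -1).card +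
        (univ.filter fun χ : G →* ℂˣ => ¬ χ c = -1).card = (univ : Finset (G →* ℂˣ)).card :=
      Finset.card_filter_add_card_filter_not _
    have h3 : (univ : Finset (G →* ℂˣ)).card = 2 * g := by
      rw [Finset.card_univ, Fintype.card_eq_nat_card,
        CommGroup.card_monoidHom_of_hasEnoughRootsOfUnity G ℂ, Nat.card_eq_fintype_card, hG]
    rw [← h1, h3] at h2
    omega

end Pool.Agent.Q154.AB
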