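import Pool.Agent.Q29.AB.Stm

/-!
# AB-TRA: types are the subsets of a transversal
-/

set_option autoImplicit false

open Finset Real
open scoped Classical

namespace Pool.Agent.Q154.AB

open Pool.Agent.Q29.AB

theorem mem_types {G : Type} [CommGroup G] [Fintype G] (c : G) (Ψ : Finset G) :
    Ψ ∈ types c ↔ ∀ x, c * x ∈ Ψ ↔ x ∉ Ψ := by
  unfold types
  rw [mem_filter]
  exact ⟨fun h => h.2, fun h => ⟨mem_univ _, h⟩⟩

theorem t_TRA : S_TRA := by
  intro G _ _ c g T hc hG hT
  rw [mem_types] at hT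
  have hcc : ∀ x : G, c * (c * x) = x := fun x => by rw [← mul_assoc, hc, one_mul]
  refine ⟨?_, ⟨?_, ?_, ?_⟩, ?_⟩
  · have h1 : (univ.filter fun x => x ∉ T).card = T.card := by
      refine Finset.card_nbij' (fun x => c * x) (fun x => c * x) ?_ ?_ ?_ ?_
      · intro x hx
        rw [mem_coe, mem_filter] at hx
        exact (hT x).2 hx.2
      · intro x hx
        rw [mem_coe, mem_filter]
        refine ⟨mem_univ _, fun h => ?_⟩
        exact (hT x).1 h hx
      · intro x _
        exact hcc x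
      · intro x _
        exact hcc x
    have h2 : (univ.filter fun x => x ∈ T).card + (univ.filter fun x => x ∉ T).card =
        (univ : Finset G).card := Finset.card_filter_add_card_filter_not _
    have h3 : (univ.filter fun x => x ∈ T) = T := by
      ext
      simp
    rw [h3, h1, Finset.card_univ, hG] at h2
    omega
  · intro Ψ _
    rw [mem_coe, mem_powerset]
    exact inter_subset_right
  · intro Ψ hΨ Ψ' hΨ' h
    rw [mem_coe, mem_types] at hΨ hΨ'
    have h1 : ∀ x ∈ T, (x ∈ Ψ ↔ x ∈ Ψ') := by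
      intro x hx
      have h2 : x ∈ Ψ ∩ T ↔ x ∈ Ψ' ∩ T := by
        have h3 : Ψ ∩ T = Ψ' ∩ T := h
        rw [h3]
      simpa [mem_inter, hx] using h2
    ext x
    by_cases hx : x ∈ T
    · exact h1 x hx
    · have h2 := h1 (c * x) ((hT x).2 hx)
      rw [hΨ x, hΨ' x] at h2
      exact not_iff_not.mp h2
  · intro U hU
    rw [mem_coe, mem_powerset] at hU
    have hcT : ∀ x, x ∈ T → c * x ∉ T := fun x hx h => (hT x).1 h hx
    refine ⟨univ.filter fun x => x ∈ U ∨ (x ∉ T ∧ c * x ∉ U), ?_, ?_⟩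
    · rw [mem_coe, mem_types]
      intro x
      simp only [mem_filter, mem_univ, true_and, hcc]
      by_cases hx : x ∈ T
      · have h1 : c * x ∉ T := hcT x hx
        have h2 : c * x ∉ U := fun h => h1 (hU h)
        simp [hx, h1, h2]
      · have h1 : c * x ∈ T := (hT x).2 hx
        have h2 : x ∉ U := fun h => hx (hU h)
        simp [hx, h1, h2]
    · show (univ.filter fun x => x ∈ U ∨ (x ∉ T ∧ c * x ∉ U)) ∩ T = U
      ext x
      simp only [mem_inter, mem_filter, mem_univ, true_and]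
      constructor
      · rintro ⟨h1 | h1, h2⟩
        · exact h1
        · exact absurd h2 h1.1
      · intro h
        exact ⟨Or.inl h, hU h⟩
  · intro χ Ψ hχ hΨ
    rw [mem_types] at hΨ
    unfold charSum
    have h1 : ∑ x ∈ Ψ, (χ x : ℂ) = ∑ x ∈ Ψ ∩ T, (χ x : ℂ) + ∑ x ∈ Ψ \ T, (χ x : ℂ) :=
      (Finset.sum_inter_add_sum_sdiff Ψ T _).symm
    have h2 : ∑ x ∈ T, (χ x : ℂ) = ∑ x ∈ Ψ ∩ T, (χ x : ℂ) + ∑ x ∈ T \ Ψ, (χ x : ℂ) := by
      rw [inter_comm]
      exact (Finset.sum_inter_add_sum_sdiff T Ψ _).symm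
    have h3 : ∑ x ∈ Ψ \ T, (χ x : ℂ) = ∑ x ∈ T \ Ψ, -(χ x : ℂ) := by
      refine Finset.sum_nbij' (fun x => c * x) (fun x => c * x) ?_ ?_ ?_ ?_ ?_
      · intro x hx
        rw [mem_sdiff] at hx ⊢
        exact ⟨(hT x).2 hx.2, fun h => (hΨ x).1 h hx.1⟩
      · intro x hx
        rw [mem_sdiff] at hx ⊢
        exact ⟨(hΨ x).2 hx.2, fun h => (hT x).1 h hx.1⟩
      · intro x _
        exact hcc x
      · intro x _
        exact hcc x
      · intro x _
        rw [map_mul, hχ]
        simp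
    rw [Finset.sum_neg_distrib] at h3
    rw [h1, h2, h3]
    ring

end Pool.Agent.Q154.AB
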